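import Mathlib

set_option autoImplicit false

namespace Pool.Agent.Lib.MP_406d9d_co

open Filter Topology Set

/-- the function `K(l, y) = (y² + l²)/2 · arctan (l / y) + l y / 2` -/
noncomputable def KK (l y : ℝ) : ℝ := (y ^ 2 + l ^ 2) / 2 * Real.arctan (l / y) + l * y / 2

lemma hasDerivAt_KK (l : ℝ) {y : ℝ} (hy : 0 < y) :
    HasDerivAt (KK l) (y * Real.arctan (l / y)) y := by
  have h1 : HasDerivAt (fun y : ℝ => l / y) (-l / y ^ 2) y := by
    have := (hasDerivAt_const y l).div (hasDerivAt_id y) hy.ne'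
    exact this.congr_deriv (by simp)
  have h2 := h1.arctan
  have h3 : HasDerivAt (fun y : ℝ => (y ^ 2 + l ^ 2) / 2) y y := by
    have := ((hasDerivAt_pow 2 y).add_const (l ^ 2)).div_const 2
    exact this.congr_deriv (by norm_num)
  have h4 := (h3.mul h2).add (((hasDerivAt_id y).const_mul l).div_const 2)
  have h5 : HasDerivAt (KK l) (y * Real.arctan (l / y) +
      (y ^ 2 + l ^ 2) / 2 * (1 / (1 + (l / y) ^ 2) * (-l / y ^ 2)) + l * 1 / 2) y := h4
  refine h5.congr_deriv ?_
  have h6 : 1 + (l / y) ^ 2 ≠ 0 := by positivity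
  have h7 : y ^ 2 + l ^ 2 ≠ 0 := by positivity
  field_simp
  ring

/-- `|arctan x - x| ≤ |x|³` -/
lemma abs_arctan_sub_le (x : ℝ) : |Real.arctan x - x| ≤ |x| ^ 3 := by
  have hd : ∀ z : ℝ, HasDerivAt (fun z => Real.arctan z - z) (1 / (1 + z ^ 2) - 1) z := by
    intro z
    exact (Real.hasDerivAt_arctan z).sub (hasDerivAt_id z)
  have h := Convex.norm_image_sub_le_of_norm_deriv_le (f := fun z : ℝ => Real.arctan z - z)
    (s := Icc (-|x|) |x|) (x := 0) (y := x) (C := |x| ^ 2)
    (fun z _ => (hd z).differentiableAt)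
    (by
      intro z hz
      rw [(hd z).deriv]
      have hz2 : z ^ 2 ≤ |x| ^ 2 := by
        rw [sq_le_sq, abs_abs]
        exact abs_le.mpr hz
      have h1 : (0 : ℝ) < 1 + z ^ 2 := by positivity
      have h2 : 1 / (1 + z ^ 2) - 1 = -(z ^ 2 / (1 + z ^ 2)) := by
        field_simp
        ring
      rw [h2, norm_neg, Real.norm_eq_abs, abs_of_nonneg (by positivity)]
      calc z ^ 2 / (1 + z ^ 2) ≤ z ^ 2 / 1 := by
            apply div_le_div_of_nonneg_left (by positivity) one_pos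
            nlinarith [sq_nonneg z]
        _ ≤ |x| ^ 2 := by rw [div_one]; exact hz2)
    (convex_Icc _ _) (by constructor <;> simp) (by
      constructor
      · exact neg_abs_le x
      · exact le_abs_self x)
  simp only [Real.arctan_zero, sub_zero, Real.norm_eq_abs] at h
  calc |Real.arctan x - x| ≤ |x| ^ 2 * |x| := h
    _ = |x| ^ 3 := by ring

lemma tendsto_KK_atTop (l : ℝ) : Tendsto (fun y => KK l y - l * y) atTop (𝓝 0) := by
  have h0 : Tendsto (fun y : ℝ => y⁻¹) atTop (𝓝 0) := tendsto_inv_atTop_zero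
  -- `KK l y - l y = y²/2 (arctan x - x) + l²/2 arctan x`, `x = l / y`
  have hx : Tendsto (fun y : ℝ => l / y) atTop (𝓝 0) := by
    have := h0.const_mul l
    simpa [div_eq_mul_inv] using this
  have h1 : Tendsto (fun y : ℝ => l ^ 2 / 2 * Real.arctan (l / y)) atTop (𝓝 0) := by
    have h2 := (Real.continuous_arctan.tendsto 0).comp hx
    rw [Real.arctan_zero] at h2
    have := h2.const_mul (l ^ 2 / 2)
    simpa using this
  have h3 : Tendsto (fun y : ℝ => y ^ 2 / 2 * (Real.arctan (l / y) - l / y)) atTop (𝓝 0) := by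
    have hb : Tendsto (fun y : ℝ => |l| ^ 3 / 2 * y⁻¹) atTop (𝓝 0) := by
      have := h0.const_mul (|l| ^ 3 / 2)
      simpa using this
    apply squeeze_zero_norm' _ hb
    filter_upwards [eventually_gt_atTop 0] with y hy
    rw [Real.norm_eq_abs, abs_mul, abs_of_nonneg (by positivity : 0 ≤ y ^ 2 / 2)]
    have := abs_arctan_sub_le (l / y)
    calc y ^ 2 / 2 * |Real.arctan (l / y) - l / y| ≤ y ^ 2 / 2 * |l / y| ^ 3 :=
          mul_le_mul_of_nonneg_left this (by positivity)
      _ = |l| ^ 3 / 2 * y⁻¹ := by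
          rw [abs_div, abs_of_pos hy]
          field_simp
  have h4 := h3.add h1
  rw [add_zero] at h4
  refine h4.congr' ?_
  filter_upwards [eventually_gt_atTop 0] with y hy
  unfold KK
  field_simp
  ring

lemma tendsto_KK_zero (l : ℝ) :
    Tendsto (KK l) (𝓝[>] 0) (𝓝 (Real.pi / 4 * (l * |l|))) := by
  have hy0 : Tendsto (fun y : ℝ => y) (𝓝[>] 0) (𝓝 0) := tendsto_nhdsWithin_of_tendsto_nhds
    tendsto_id
  have hc : Tendsto (fun y : ℝ => (y ^ 2 + l ^ 2) / 2) (𝓝[>] 0) (𝓝 (l ^ 2 / 2)) := by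
    have := ((hy0.pow 2).add_const (l ^ 2)).div_const 2
    simpa using this
  have hl : Tendsto (fun y : ℝ => l * y / 2) (𝓝[>] 0) (𝓝 0) := by
    have := (hy0.const_mul l).div_const 2
    simpa using this
  have ha : Tendsto (fun y : ℝ => (y ^ 2 + l ^ 2) / 2 * Real.arctan (l / y)) (𝓝[>] 0)
      (𝓝 (Real.pi / 4 * (l * |l|))) := by
    rcases lt_trichotomy l 0 with h | h | h
    · have h1 : Tendsto (fun y : ℝ => l / y) (𝓝[>] 0) atBot := by
        have := (tendsto_inv_nhdsGT_zero (𝕜 := ℝ)).const_mul_atTop_of_neg h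
        simpa [div_eq_mul_inv] using this
      have h2 := (tendsto_nhds_of_tendsto_nhdsWithin Real.tendsto_arctan_atBot).comp h1
      have h3 := hc.mul h2
      have e : l ^ 2 / 2 * -(Real.pi / 2) = Real.pi / 4 * (l * |l|) := by
        rw [abs_of_neg h]; ring
      rw [e] at h3
      exact h3
    · subst h
      simp
    · have h1 : Tendsto (fun y : ℝ => l / y) (𝓝[>] 0) atTop := by
        have := (tendsto_inv_nhdsGT_zero (𝕜 := ℝ)).const_mul_atTop h
        simpa [div_eq_mul_inv] using this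
      have h2 := (tendsto_nhds_of_tendsto_nhdsWithin Real.tendsto_arctan_atTop).comp h1
      have h3 := hc.mul h2
      have e : l ^ 2 / 2 * (Real.pi / 2) = Real.pi / 4 * (l * |l|) := by
        rw [abs_of_pos h]; ring
      rw [e] at h3
      exact h3
  have := ha.add hl
  rw [add_zero] at this
  exact this

/-- Comparison: pointwise comparison of `∑ arctan (l_j / y)` gives the comparison of
`∑ l_j |l_j|`. -/
theorem sum_mul_abs_le {ι κ : Type*} [Fintype ι] [Fintype κ] (l : ι → ℝ) (m : κ → ℝ)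
    (hl : ∑ j, l j = 0) (hm : ∑ j, m j = 0)
    (h : ∀ y : ℝ, 0 < y → ∑ j, Real.arctan (l j / y) ≤ ∑ j, Real.arctan (m j / y)) :
    ∑ j, m j * |m j| ≤ ∑ j, l j * |l j| := by
  -- the difference is monotone
  let D : ℝ → ℝ := fun y => ∑ j, KK (m j) y - ∑ j, KK (l j) y
  have hD : ∀ y : ℝ, 0 < y → HasDerivAt D
      (∑ j, y * Real.arctan (m j / y) - ∑ j, y * Real.arctan (l j / y)) y := by
    intro y hy
    apply HasDerivAt.sub
    · exact HasDerivAt.fun_sum (fun j _ => hasDerivAt_KK (m j) hy)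
    · exact HasDerivAt.fun_sum (fun j _ => hasDerivAt_KK (l j) hy)
  have hmono : MonotoneOn D (Ioi 0) := by
    apply monotoneOn_of_deriv_nonneg (convex_Ioi 0)
    · intro y hy
      exact (hD y hy).continuousAt.continuousWithinAt
    · intro y hy
      rw [interior_Ioi] at hy
      exact (hD y hy).differentiableAt.differentiableWithinAt
    · intro y hy
      rw [interior_Ioi] at hy
      rw [(hD y hy).deriv, ← Finset.mul_sum, ← Finset.mul_sum, ← mul_sub]
      exact mul_nonneg (le_of_lt hy) (sub_nonneg.mpr (h y hy))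
  have htop : Tendsto D atTop (𝓝 0) := by
    have h1 : Tendsto (fun y => ∑ j, (KK (m j) y - m j * y) - ∑ j, (KK (l j) y - l j * y)) atTop
        (𝓝 (∑ _j : κ, (0 : ℝ) - ∑ _j : ι, (0 : ℝ))) :=
      (tendsto_finsetSum _ (fun j _ => tendsto_KK_atTop (m j))).sub
        (tendsto_finsetSum _ (fun j _ => tendsto_KK_atTop (l j)))
    simp only [Finset.sum_const_zero, sub_zero] at h1
    refine h1.congr (fun y => ?_)
    simp only [D, Finset.sum_sub_distrib, ← Finset.sum_mul, hl, hm]
    ring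
  have hzero : Tendsto D (𝓝[>] 0)
      (𝓝 (∑ j, Real.pi / 4 * (m j * |m j|) - ∑ j, Real.pi / 4 * (l j * |l j|))) :=
    (tendsto_finsetSum _ (fun j _ => tendsto_KK_zero (m j))).sub
      (tendsto_finsetSum _ (fun j _ => tendsto_KK_zero (l j)))
  have hle : ∀ y : ℝ, 0 < y → D y ≤ 0 := by
    intro y hy
    apply ge_of_tendsto htop
    filter_upwards [eventually_ge_atTop y] with z hz
    exact hmono hy (lt_of_lt_of_le hy hz) hz
  have hfin : ∑ j, Real.pi / 4 * (m j * |m j|) - ∑ j, Real.pi / 4 * (l j * |l j|) ≤ 0 := by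
    apply le_of_tendsto hzero
    filter_upwards [self_mem_nhdsWithin] with y hy
    exact hle y hy
  rw [← Finset.mul_sum, ← Finset.mul_sum, ← mul_sub] at hfin
  have hpi : 0 < Real.pi / 4 := by positivity
  have := nonpos_of_mul_nonpos_right hfin hpi
  linarith

/-- polar form of the product `∏ (y + i l_j)` -/
lemma prod_polar {ι : Type*} [Fintype ι] (l : ι → ℝ) {y : ℝ} (hy : 0 < y) :
    ∃ R : ℝ, 0 < R ∧ ∏ j, ((y : ℂ) + Complex.I * (l j : ℂ)) =
      (R : ℂ) * Complex.exp (((∑ j, Real.arctan (l j / y) : ℝ) : ℂ) * Complex.I) := by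
  refine ⟨∏ j, (y * √(1 + (l j / y) ^ 2)), ?_, ?_⟩
  · apply Finset.prod_pos
    intro j _
    have : 0 < √(1 + (l j / y) ^ 2) := Real.sqrt_pos.mpr (by positivity)
    positivity
  · rw [Complex.ofReal_sum, Finset.sum_mul, Complex.exp_sum, Complex.ofReal_prod,
      ← Finset.prod_mul_distrib]
    apply Finset.prod_congr rfl
    intro j _
    have hs : 0 < √(1 + (l j / y) ^ 2) := Real.sqrt_pos.mpr (by positivity)
    rw [Complex.exp_mul_I, ← Complex.ofReal_cos, ← Complex.ofReal_sin, Real.cos_arctan,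
      Real.sin_arctan]
    apply Complex.ext
    · simp
      field_simp
    · simp
      field_simp

/-- the sum of the arctangents stays in `(-π/2, π/2)` if the real part of the product is always
positive -/
lemma abs_theta_lt {ι : Type*} [Fintype ι] (l : ι → ℝ)
    (h : ∀ y : ℝ, 0 < y → 0 < (∏ j, ((y : ℂ) + Complex.I * (l j : ℂ))).re)
    {y : ℝ} (hy : 0 < y) : |∑ j, Real.arctan (l j / y)| < Real.pi / 2 := by
  let θ : ℝ → ℝ := fun y => |∑ j, Real.arctan (l j / y)|
  have hcos : ∀ z : ℝ, 0 < z → Real.cos (∑ j, Real.arctan (l j / z)) ≠ 0 := by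
    intro z hz h0
    obtain ⟨R, hR, hprod⟩ := prod_polar l hz
    have h1 := h z hz
    rw [hprod, Complex.re_ofReal_mul, Complex.exp_ofReal_mul_I_re, h0, mul_zero] at h1
    exact lt_irrefl _ h1
  by_contra hcon
  push Not at hcon
  have hlim : Tendsto θ atTop (𝓝 0) := by
    have h1 : Tendsto (fun y : ℝ => ∑ j, Real.arctan (l j / y)) atTop (𝓝 (∑ _j : ι, (0 : ℝ))) := by
      apply tendsto_finsetSum
      intro j _
      have h0 : Tendsto (fun y : ℝ => y⁻¹) atTop (𝓝 0) := tendsto_inv_atTop_zero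
      have hx : Tendsto (fun y : ℝ => l j / y) atTop (𝓝 0) := by
        have := h0.const_mul (l j)
        simpa [div_eq_mul_inv] using this
      have h2 := (Real.continuous_arctan.tendsto 0).comp hx
      rw [Real.arctan_zero] at h2
      exact h2
    rw [Finset.sum_const_zero] at h1
    have := h1.abs
    simpa using this
  have hpi : 0 < Real.pi / 2 := by positivity
  obtain ⟨z, hz1, hz2⟩ := ((hlim.eventually_lt_const hpi).and (eventually_gt_atTop y)).exists
  have hcont : ContinuousOn θ (Icc y z) := by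
    apply ContinuousOn.abs
    apply continuousOn_finsetSum
    intro j _
    apply Real.continuous_arctan.comp_continuousOn
    apply ContinuousOn.div continuousOn_const continuousOn_id
    intro w hw
    exact (lt_of_lt_of_le hy hw.1).ne'
  have hivt := intermediate_value_Icc' hz2.le hcont
  obtain ⟨w, hw, hwθ⟩ := hivt ⟨hz1.le, hcon⟩
  have hw0 : 0 < w := lt_of_lt_of_le hy hw.1
  apply hcos w hw0
  have h1 : |∑ j, Real.arctan (l j / w)| = Real.pi / 2 := hwθ
  rcases abs_choice (∑ j, Real.arctan (l j / w)) with h2 | h2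
  · rw [← h2, h1, Real.cos_pi_div_two]
  · rw [← Real.cos_neg, ← h2, h1, Real.cos_pi_div_two]

lemma theta_eq {ι : Type*} [Fintype ι] (l : ι → ℝ)
    (hl : ∀ y : ℝ, 0 < y → 0 < (∏ j, ((y : ℂ) + Complex.I * (l j : ℂ))).re)
    {y : ℝ} (hy : 0 < y) :
    ∑ j, Real.arctan (l j / y) = Real.arctan
        ((∏ j, ((y : ℂ) + Complex.I * (l j : ℂ))).im /
          (∏ j, ((y : ℂ) + Complex.I * (l j : ℂ))).re) := by
  have h1 := abs_lt.mp (abs_theta_lt l hl hy)
  obtain ⟨R, hR, hprod⟩ := prod_polar l hy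
  have hre : (∏ j, ((y : ℂ) + Complex.I * (l j : ℂ))).re =
      R * Real.cos (∑ j, Real.arctan (l j / y)) := by
    rw [hprod, Complex.re_ofReal_mul, Complex.exp_ofReal_mul_I_re]
  have him : (∏ j, ((y : ℂ) + Complex.I * (l j : ℂ))).im =
      R * Real.sin (∑ j, Real.arctan (l j / y)) := by
    rw [hprod, Complex.im_ofReal_mul, Complex.exp_ofReal_mul_I_im]
  rw [hre, him, mul_div_mul_left _ _ hR.ne', ← Real.tan_eq_sin_div_cos]
  exact (Real.arctan_tan h1.1 h1.2).symm

/-- comparison of the arguments by the quotients `Im / Re` -/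
lemma theta_le {ι κ : Type*} [Fintype ι] [Fintype κ] (l : ι → ℝ) (m : κ → ℝ)
    (hl : ∀ y : ℝ, 0 < y → 0 < (∏ j, ((y : ℂ) + Complex.I * (l j : ℂ))).re)
    (hm : ∀ y : ℝ, 0 < y → 0 < (∏ j, ((y : ℂ) + Complex.I * (m j : ℂ))).re)
    {y : ℝ} (hy : 0 < y)
    (h : (∏ j, ((y : ℂ) + Complex.I * (l j : ℂ))).im / (∏ j, ((y : ℂ) + Complex.I * (l j : ℂ))).re
      ≤ (∏ j, ((y : ℂ) + Complex.I * (m j : ℂ))).im /
        (∏ j, ((y : ℂ) + Complex.I * (m j : ℂ))).re) :
    ∑ j, Real.arctan (l j / y) ≤ ∑ j, Real.arctan (m j / y) := by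
  rw [theta_eq l hl hy, theta_eq m hm hy]
  exact Real.arctan_strictMono.monotone h

end Pool.Agent.Lib.MP_406d9d_co
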