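import Mathlib

set_option autoImplicit false

namespace Pool.Agent.Lib.MP_406d9d_co

open Matrix

/-- the continuant `K(x₀, …, x_{j-1})` with `K_{j+2} = x₀ K_{j+1}(x₁, …) + K_j(x₂, …)` -/
noncomputable def cont : ℕ → (ℕ → ℝ) → ℝ
  | 0, _ => 1
  | 1, x => x 0
  | (j + 2), x => x 0 * cont (j + 1) (fun i => x (i + 1)) + cont j (fun i => x (i + 2))

/-- path matrix on `Fin j` with diagonal `x` and off-diagonal entries `i` -/
noncomputable def pathMat (j : ℕ) (x : ℕ → ℝ) : Matrix (Fin j) (Fin j) ℂ :=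
  fun a b => if (a : ℕ) = b then (x a : ℂ) else
    if (a : ℕ) + 1 = b ∨ (b : ℕ) + 1 = a then Complex.I else 0

lemma det_pathMat (j : ℕ) : ∀ x : ℕ → ℝ, (pathMat j x).det = (cont j x : ℂ) := by
  induction j using Nat.strong_induction_on with
  | _ j ih =>
    match j with
    | 0 => intro x; simp [cont]
    | 1 => intro x; simp [cont, pathMat]
    | (j + 2) =>
      intro x
      rw [Matrix.det_succ_row_zero, Fin.sum_univ_succ, Fin.sum_univ_succ]
      have hrest : ∀ i : Fin j, (pathMat (j + 2) x) 0 i.succ.succ = 0 := by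
        intro i
        simp [pathMat]
      have h1 : (pathMat (j + 2) x).submatrix Fin.succ (Fin.succAbove 0) =
          pathMat (j + 1) (fun i => x (i + 1)) := by
        ext a b
        simp [pathMat]
      have h2 : ((pathMat (j + 2) x).submatrix Fin.succ (Fin.succAbove (Fin.succ 0))).det =
          Complex.I * (cont j (fun i => x (i + 2)) : ℂ) := by
        rw [Matrix.det_succ_column_zero, Fin.sum_univ_succ]
        have hr : ∀ i : Fin j, ((pathMat (j + 2) x).submatrix Fin.succ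
            (Fin.succAbove (Fin.succ 0))) i.succ 0 = 0 := by
          intro i
          simp [pathMat]
        have h3 : (((pathMat (j + 2) x).submatrix Fin.succ
            (Fin.succAbove (Fin.succ 0))).submatrix (Fin.succAbove 0) Fin.succ) =
            pathMat j (fun i => x (i + 2)) := by
          ext a b
          simp [pathMat, Fin.succAbove]
        rw [h3, ih j (by omega)]
        simp only [hr]
        simp [pathMat]
      rw [h1, h2, ih (j + 1) (by omega)]
      simp only [hrest]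
      simp [pathMat, cont]
      ring_nf
      rw [Complex.I_sq]
      ring

/-- cycle matrix on `Fin k` with diagonal `x` and entries `i` on the edges of the cycle -/
noncomputable def cycMat (k : ℕ) (x : ℕ → ℝ) : Matrix (Fin k) (Fin k) ℂ :=
  fun a b => if (a : ℕ) = b then (x a : ℂ) else
    if ((a : ℕ) + 1 = b ∨ (b : ℕ) + 1 = a) ∨
      (((a : ℕ) = 0 ∧ (b : ℕ) + 1 = k) ∨ ((b : ℕ) = 0 ∧ (a : ℕ) + 1 = k)) then Complex.I else 0

lemma det_cycMat (j : ℕ) (x : ℕ → ℝ) : (cycMat (j + 3) x).det =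
    ((cont (j + 3) x + cont (j + 1) (fun i => x (i + 1)) : ℝ) : ℂ) +
      2 * (-1) ^ (j + 2) * Complex.I ^ (j + 3) := by
  rw [Matrix.det_succ_row_zero, Fin.sum_univ_succ, Fin.sum_univ_succ, Fin.sum_univ_castSucc]
  have hrest : ∀ i : Fin j, (cycMat (j + 3) x) 0 i.castSucc.succ.succ = 0 := by
    intro i
    simp [cycMat]
    omega
  have h00 : (cycMat (j + 3) x).submatrix Fin.succ (Fin.succAbove 0) =
      pathMat (j + 2) (fun i => x (i + 1)) := by
    ext a b
    simp [pathMat, cycMat]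
  -- the minor (0,1)
  have h01 : ((cycMat (j + 3) x).submatrix Fin.succ (Fin.succAbove (Fin.succ 0))).det =
      Complex.I * (cont (j + 1) (fun i => x (i + 2)) : ℂ) +
        (-1) ^ (j + 1) * Complex.I * Complex.I ^ (j + 1) := by
    rw [Matrix.det_succ_column_zero, Fin.sum_univ_succ, Fin.sum_univ_castSucc]
    have hr : ∀ i : Fin j, ((cycMat (j + 3) x).submatrix Fin.succ
        (Fin.succAbove (Fin.succ 0))) i.castSucc.succ 0 = 0 := by
      intro i
      simp [cycMat]
      omega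
    have h3 : (((cycMat (j + 3) x).submatrix Fin.succ
        (Fin.succAbove (Fin.succ 0))).submatrix (Fin.succAbove 0) Fin.succ) =
        pathMat (j + 1) (fun i => x (i + 2)) := by
      ext a b
      simp [pathMat, cycMat, Fin.succAbove]
    have h4 : (((cycMat (j + 3) x).submatrix Fin.succ
        (Fin.succAbove (Fin.succ 0))).submatrix (Fin.succAbove (Fin.last (j + 1))) Fin.succ).det =
        Complex.I ^ (j + 1) := by
      rw [Matrix.det_of_isLowerTriangular]
      · rw [Finset.prod_eq_pow_card (b := Complex.I)]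
        · simp
        · intro a _
          simp [cycMat, Fin.succAbove]
      · intro a b hab
        simp only [OrderDual.toDual_lt_toDual] at hab
        have : (a : ℕ) < b := hab
        simp [cycMat, Fin.succAbove]
        rw [if_neg (by omega), if_neg (by omega)]
    rw [h3, det_pathMat]
    simp only [hr]
    have h5 : (Fin.last j).succ = Fin.last (j + 1) := rfl
    rw [h5, h4]
    simp [cycMat]
  have h0l : ((cycMat (j + 3) x).submatrix Fin.succ
      (Fin.succAbove (Fin.last (j + 2)))).det =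
      Complex.I * Complex.I ^ (j + 1) +
        (-1) ^ (j + 1) * Complex.I * (cont (j + 1) (fun i => x (i + 1)) : ℂ) := by
    rw [Matrix.det_succ_column_zero, Fin.sum_univ_succ, Fin.sum_univ_castSucc]
    have hr : ∀ i : Fin j, ((cycMat (j + 3) x).submatrix Fin.succ
        (Fin.succAbove (Fin.last (j + 2)))) i.castSucc.succ 0 = 0 := by
      intro i
      simp [cycMat]
      omega
    have h3 : (((cycMat (j + 3) x).submatrix Fin.succ
        (Fin.succAbove (Fin.last (j + 2)))).submatrix (Fin.succAbove (Fin.last (j + 1)))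
          Fin.succ) =
        pathMat (j + 1) (fun i => x (i + 1)) := by
      ext a b
      simp [pathMat, cycMat]
    have h4 : (((cycMat (j + 3) x).submatrix Fin.succ
        (Fin.succAbove (Fin.last (j + 2)))).submatrix (Fin.succAbove 0) Fin.succ).det =
        Complex.I ^ (j + 1) := by
      rw [Matrix.det_of_isUpperTriangular]
      · rw [Finset.prod_eq_pow_card (b := Complex.I)]
        · simp
        · intro a _
          simp [cycMat]
      · intro a b hab
        have : (b : ℕ) < a := hab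
        simp [cycMat]
        rw [if_neg (by omega), if_neg (by omega)]
    rw [h4]
    simp only [hr]
    have h5 : (Fin.last j).succ = Fin.last (j + 1) := rfl
    rw [h5, h3, det_pathMat]
    simp [cycMat]
  rw [h00, det_pathMat, h01]
  have h5 : (Fin.last j).succ.succ = Fin.last (j + 2) := rfl
  rw [h5, h0l]
  simp only [hrest]
  simp [cycMat, cont]
  have hI : Complex.I ^ 2 = -1 := Complex.I_sq
  have hs : ((-1 : ℂ) ^ (j + 1)) ^ 2 = 1 := by
    rw [← pow_mul, mul_comm, pow_mul]; norm_num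
  have e1 : (-1 : ℂ) ^ (j + 2) = (-1) ^ (j + 1) * (-1) := pow_succ _ _
  have e2 : Complex.I ^ (j + 3) = Complex.I ^ (j + 1) * Complex.I ^ 2 := by
    rw [← pow_add]
  rw [e1, e2]
  linear_combination (-((cont (j + 1) (fun i => x (i + 2)) : ℂ) + ((-1 : ℂ) ^ (j + 1)) ^ 2 *
    (cont (j + 1) (fun i => x (i + 1)) : ℂ))) * hI + (cont (j + 1) (fun i => x (i + 1)) : ℂ) * hs

/-! ### monotonicity and lower bounds for continuants -/

lemma cont_mono (j : ℕ) : ∀ (x x' : ℕ → ℝ), (∀ i < j, 0 ≤ x i) → (∀ i < j, x i ≤ x' i) →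
    0 ≤ cont j x ∧ cont j x ≤ cont j x' := by
  induction j using Nat.strong_induction_on with
  | _ j ih =>
    match j with
    | 0 => intro x x' _ _; simp [cont]
    | 1 => intro x x' h0 h1; simp only [cont]; exact ⟨h0 0 one_pos, h1 0 one_pos⟩
    | (j + 2) =>
      intro x x' h0 h1
      simp only [cont]
      obtain ⟨a1, a2⟩ := ih (j + 1) (by omega) (fun i => x (i + 1)) (fun i => x' (i + 1))
        (fun i hi => h0 _ (by omega)) (fun i hi => h1 _ (by omega))
      obtain ⟨b1, b2⟩ := ih j (by omega) (fun i => x (i + 2)) (fun i => x' (i + 2))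
        (fun i hi => h0 _ (by omega)) (fun i hi => h1 _ (by omega))
      have c1 := h0 0 (by omega)
      have c2 := h1 0 (by omega)
      constructor
      · positivity
      · exact add_le_add (mul_le_mul c2 a2 a1 (c1.trans c2)) b2

/-- the cycle form `F_k` -/
noncomputable def cyc (k : ℕ) (x : ℕ → ℝ) : ℝ := cont k x + cont (k - 2) (fun i => x (i + 1))

lemma cyc_mono (k : ℕ) (hk : 2 ≤ k) (x x' : ℕ → ℝ) (h0 : ∀ i < k, 0 ≤ x i)
    (h1 : ∀ i < k, x i ≤ x' i) : cyc k x ≤ cyc k x' := by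
  unfold cyc
  exact add_le_add (cont_mono k x x' h0 h1).2
    (cont_mono (k - 2) _ _ (fun i hi => h0 _ (by omega)) (fun i hi => h1 _ (by omega))).2

/-- constant continuants -/
noncomputable def cc (y : ℝ) (j : ℕ) : ℝ := cont j (fun _ => y)

lemma cc_succ (y : ℝ) (j : ℕ) : cc y (j + 2) = y * cc y (j + 1) + cc y j := rfl

lemma cc_nonneg {y : ℝ} (hy : 0 ≤ y) (j : ℕ) : 0 ≤ cc y j :=
  (cont_mono j _ (fun _ => y) (fun _ _ => hy) (fun _ _ => le_rfl)).1

lemma cc_two_le {y : ℝ} (hy : 0 ≤ y) (j i : ℕ) : cc y j ≤ cc y (j + 2 * i) := by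
  induction i with
  | zero => exact le_rfl
  | succ i ih =>
    refine ih.trans ?_
    have h1 : j + 2 * (i + 1) = (j + 2 * i) + 2 := by ring
    rw [h1, cc_succ]
    have := mul_nonneg hy (cc_nonneg hy (j + 2 * i + 1))
    linarith

lemma cyc_const_ge {y : ℝ} (hy : 0 ≤ y) (k : ℕ) (hk : 7 ≤ k) (hodd : Odd k) :
    y ^ 7 + 7 * y ^ 5 + 14 * y ^ 3 + 7 * y ≤ cyc k (fun _ => y) := by
  obtain ⟨i, hi⟩ : ∃ i, k = 7 + 2 * i := by
    obtain ⟨t, ht⟩ := hodd
    exact ⟨t - 3, by omega⟩
  have h1 : cc y 7 ≤ cc y k := by rw [hi]; exact cc_two_le hy 7 i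
  have h2 : cc y 5 ≤ cc y (k - 2) := by
    rw [show k - 2 = 5 + 2 * i by omega]; exact cc_two_le hy 5 i
  have h3 : cc y 7 + cc y 5 = y ^ 7 + 7 * y ^ 5 + 14 * y ^ 3 + 7 * y := by
    simp only [cc, cont]
    ring
  have h4 : cyc k (fun _ => y) = cc y k + cc y (k - 2) := rfl
  rw [h4, ← h3]
  exact add_le_add h1 h2

/-- the bound for triangles -/
noncomputable def B3 (n : ℕ) (y : ℝ) : ℝ :=
  y ^ 3 + 3 * y + (y ^ 2 + 1) * (y / (y ^ 2 + (n - 4)))

/-- the bound for pentagons -/
noncomputable def B5 (n : ℕ) (y : ℝ) : ℝ :=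
  y ^ 5 + 5 * y ^ 3 + 5 * y + (y ^ 4 + 3 * y ^ 2 + 1) * (y / (y ^ 2 + (n - 6)))

lemma B3_le {n : ℕ} (hn : 7 ≤ n) {y : ℝ} (hy : 0 < y) :
    B3 n y ≤ y ^ 7 + 7 * y ^ 5 + 14 * y ^ 3 + 7 * y := by
  have hn' : (7 : ℝ) ≤ n := by exact_mod_cast hn
  unfold B3
  have h1 : (y ^ 2 + 1) * (y / (y ^ 2 + (n - 4))) ≤ y := by
    rw [mul_div_assoc', div_le_iff₀ (by nlinarith)]
    nlinarith
  have h2 : 0 < y ^ 7 := by positivity
  have h3 : 0 < y ^ 5 := by positivity
  have h4 : 0 < y ^ 3 := by positivity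
  linarith

lemma B5_le {n : ℕ} (hn : 7 ≤ n) {y : ℝ} (hy : 0 < y) :
    B5 n y ≤ y ^ 7 + 7 * y ^ 5 + 14 * y ^ 3 + 7 * y := by
  have hn' : (7 : ℝ) ≤ n := by exact_mod_cast hn
  unfold B5
  have h1 : (y ^ 4 + 3 * y ^ 2 + 1) * (y / (y ^ 2 + (n - 6))) ≤ y * (y ^ 2 + 2) := by
    rw [mul_div_assoc', div_le_iff₀ (by nlinarith)]
    have e1 : y * (y ^ 2 + 2) * (y ^ 2 + 1) ≤ y * (y ^ 2 + 2) * (y ^ 2 + (n - 6)) :=
      mul_le_mul_of_nonneg_left (by linarith) (by positivity)
    nlinarith
  have h2 : 0 < y ^ 7 := by positivity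
  have h3 : 0 < y ^ 5 := by positivity
  have h4 : 0 < y ^ 3 := by positivity
  nlinarith

/-- cycle form for a triangle with one heavier vertex -/
lemma cyc_three_ge {n : ℕ} {y : ℝ} (hy : 0 < y) (x : ℕ → ℝ) (h : ∀ i < 3, y ≤ x i)
    (hn : 4 < n) (h' : ∃ i < 3, y + y / (y ^ 2 + (n - 4)) ≤ x i) : B3 n y ≤ cyc 3 x := by
  obtain ⟨u, hu, hxu⟩ := h'
  have hn' : (5 : ℝ) ≤ n := by exact_mod_cast hn
  set η := y / (y ^ 2 + (n - 4)) with hη
  have h1 : cyc 3 (fun i => if i = u then y + η else y) ≤ cyc 3 x := by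
    apply cyc_mono 3 (by norm_num)
    · intro i _
      have : 0 ≤ η := by rw [hη]; apply div_nonneg hy.le; nlinarith
      split_ifs <;> linarith
    · intro i hi
      split_ifs with h2
      · rw [h2]; exact hxu
      · exact h i hi
  refine le_trans (le_of_eq ?_) h1
  unfold B3
  rw [← hη]
  interval_cases u <;> simp [cyc, cont] <;> ring

lemma cyc_five_ge {n : ℕ} {y : ℝ} (hy : 0 < y) (x : ℕ → ℝ) (h : ∀ i < 5, y ≤ x i)
    (hn : 6 < n) (h' : ∃ i < 5, y + y / (y ^ 2 + (n - 6)) ≤ x i) : B5 n y ≤ cyc 5 x := by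
  obtain ⟨u, hu, hxu⟩ := h'
  have hn' : (7 : ℝ) ≤ n := by exact_mod_cast hn
  set η := y / (y ^ 2 + (n - 6)) with hη
  have h1 : cyc 5 (fun i => if i = u then y + η else y) ≤ cyc 5 x := by
    apply cyc_mono 5 (by norm_num)
    · intro i _
      have : 0 ≤ η := by rw [hη]; apply div_nonneg hy.le; nlinarith
      split_ifs <;> linarith
    · intro i hi
      split_ifs with h2
      · rw [h2]; exact hxu
      · exact h i hi
  refine le_trans (le_of_eq ?_) h1
  unfold B5
  rw [← hη]
  interval_cases u <;> simp [cyc, cont] <;> ring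

end Pool.Agent.Lib.MP_406d9d_co
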