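import Mathlib

set_option autoImplicit false

/-!
Square energies of graphs, unicyclic graphs, and the graphs `H^k_n`.
-/

namespace Pool.Agent.Lib.MP_406d9d_co

open Classical in
/-- the positive square energy: the sum of `λ²` over the positive eigenvalues `λ` (with
multiplicity) of the adjacency matrix -/
noncomputable def sPlus {V : Type*} [Fintype V] (G : SimpleGraph V) : ℝ :=
  ∑ i : V, if 0 < (G.isHermitian_adjMatrix ℝ).eigenvalues i then
    ((G.isHermitian_adjMatrix ℝ).eigenvalues i) ^ 2 else 0

open Classical in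
/-- the negative square energy: the sum of `λ²` over the negative eigenvalues `λ` (with
multiplicity) of the adjacency matrix -/
noncomputable def sMinus {V : Type*} [Fintype V] (G : SimpleGraph V) : ℝ :=
  ∑ i : V, if (G.isHermitian_adjMatrix ℝ).eigenvalues i < 0 then
    ((G.isHermitian_adjMatrix ℝ).eigenvalues i) ^ 2 else 0

/-- unicyclic graph: connected, with as many edges as vertices -/
def IsUnicyclic {V : Type*} (G : SimpleGraph V) : Prop :=
  G.Connected ∧ Nat.card G.edgeSet = Nat.card V

/-- The graph `H^k_n` on the vertices `0, …, n - 1`: the cycle `0, 1, …, k - 1`, the vertex `k`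
(the centre of the star `K_{1,n-k}`) adjacent to the vertex `0` of the cycle, and the vertices
`k + 1, …, n - 1` (the remaining leaves of the star) adjacent to `k`. -/
def starCycle (k n : ℕ) : SimpleGraph (Fin n) :=
  SimpleGraph.fromRel (fun a b : Fin n =>
    ((a : ℕ) + 1 = b ∧ (b : ℕ) < k) ∨ ((a : ℕ) = 0 ∧ (b : ℕ) + 1 = k) ∨
      ((a : ℕ) = 0 ∧ (b : ℕ) = k) ∨ ((a : ℕ) = k ∧ k < (b : ℕ)))

end Pool.Agent.Lib.MP_406d9d_co
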