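import Mathlib
import Pool.Agent.Lib.MP_406d9d_co.Cycle

set_option autoImplicit false

namespace Pool.Agent.Lib.MP_406d9d_co

open Matrix

/-- the matrix `diag(x) + i A(G)` -/
noncomputable def Zmat {V : Type*} [DecidableEq V] (G : SimpleGraph V)
    [DecidableRel G.Adj] (x : V → ℝ) : Matrix V V ℂ :=
  Matrix.diagonal (fun v => (x v : ℂ)) + Complex.I • G.adjMatrix ℂ

section Leaf

variable {V : Type*} [Fintype V] [DecidableEq V] (G : SimpleGraph V) [DecidableRel G.Adj]

omit [Fintype V] in
lemma Zmat_apply (x : V → ℝ) (a b : V) : Zmat G x a b =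
    (if a = b then (x a : ℂ) else 0) + (if G.Adj a b then Complex.I else 0) := by
  simp [Zmat, Matrix.diagonal_apply, SimpleGraph.adjMatrix_apply]

/-- elimination of a vertex of degree one -/
lemma det_leaf (x : V → ℝ) (l u : V) (hl : ∀ v, G.Adj l v ↔ v = u) (hx : 0 < x l) :
    (Zmat G x).det = (x l : ℂ) *
      (Zmat (G.comap (Subtype.val : {v : V // v ≠ l} → V))
        (fun v => if (v : V) = u then x v + 1 / x l else x v)).det := by
  have hul : u ≠ l := by
    intro h
    have := (hl u).mpr rfl
    rw [h] at this
    exact G.irrefl this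
  have hxl : (x l : ℂ) ≠ 0 := by exact_mod_cast hx.ne'
  rw [← Matrix.det_updateRow_add_smul_self (Zmat G x) hul (-Complex.I / (x l : ℂ))]
  set M := (Zmat G x).updateRow u (Zmat G x u + (-Complex.I / (x l : ℂ)) • Zmat G x l) with hM
  have hMu : ∀ b, M u b = Zmat G x u b + (-Complex.I / (x l : ℂ)) * Zmat G x l b := by
    intro b; simp [hM]
  have hMne : ∀ a, a ≠ u → ∀ b, M a b = Zmat G x a b := by
    intro a ha b; rw [hM, Matrix.updateRow_ne ha]
  have hadjlu : G.Adj l u := (hl u).mpr rfl
  have hcol : ∀ a, ¬ a = l → ∀ b, b = l → M a b = 0 := by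
    intro a ha b hb
    subst hb
    by_cases hau : a = u
    · subst hau
      rw [hMu, Zmat_apply, Zmat_apply, if_neg ha, if_pos rfl, if_pos hadjlu.symm,
        if_neg (G.irrefl)]
      field_simp
      ring
    · rw [hMne a hau, Zmat_apply, if_neg ha, if_neg, add_zero]
      intro h
      exact hau ((hl a).mp h.symm)
  rw [Matrix.twoBlockTriangular_det M (fun a => a = l) hcol]
  congr 1
  · -- the block `{l}`
    have : Subsingleton {a // a = l} := ⟨fun a b => Subtype.ext (a.2.trans b.2.symm)⟩
    refine Eq.trans (?_ : _ = (M.toSquareBlockProp fun a => a = l) ⟨l, rfl⟩ ⟨l, rfl⟩) ?_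
    · apply @Matrix.det_eq_elem_of_subsingleton {a // a = l} _ (Subtype.fintype fun a => a = l) ℂ _
        this
    simp only [Matrix.toSquareBlockProp_def, Matrix.of_apply]
    rw [hMne l (fun h => hul h.symm), Zmat_apply, if_pos rfl, if_neg (G.irrefl), add_zero]
  · -- the other block
    change (Matrix.toSquareBlockProp M (fun i => i ≠ l)).det = _
    congr 1
    ext ⟨a, ha⟩ ⟨b, hb⟩
    simp only [Matrix.toSquareBlockProp_def, Matrix.of_apply]
    rw [Zmat_apply]
    simp only [SimpleGraph.comap_adj, Subtype.mk.injEq]
    by_cases hau : a = u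
    · subst hau
      rw [hMu, Zmat_apply, Zmat_apply, if_neg (fun h : l = b => hb h.symm), zero_add]
      by_cases hab : a = b
      · subst hab
        rw [if_pos rfl, if_pos rfl, if_neg (G.irrefl), if_pos hadjlu, if_pos rfl]
        push_cast
        have : -Complex.I / (x l : ℂ) * Complex.I = 1 / (x l : ℂ) := by
          rw [div_mul_eq_mul_div, neg_mul, Complex.I_mul_I]
          simp
        rw [this]
        ring
      · rw [if_neg hab, if_neg hab]
        have hlb : ¬ G.Adj l b := fun h => hab ((hl b).mp h).symm
        rw [if_neg hlb]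
        ring
    · rw [hMne a hau, Zmat_apply, if_neg hau]

end Leaf

section Label

variable {V : Type*} [Fintype V] [DecidableEq V] (G : SimpleGraph V) [DecidableRel G.Adj]

/-- a connected graph, all degrees two, is a labelled cycle -/
lemma exists_labelling (hc : G.Connected) (hdeg : ∀ v, G.degree v = 2) :
    3 ≤ Fintype.card V ∧ ∃ e : Fin (Fintype.card V) ≃ V, ∀ a b, G.Adj (e a) (e b) ↔
      (((a : ℕ) + 1 = b ∨ (b : ℕ) + 1 = a) ∨
      (((a : ℕ) = 0 ∧ (b : ℕ) + 1 = Fintype.card V) ∨
        ((b : ℕ) = 0 ∧ (a : ℕ) + 1 = Fintype.card V))) := by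
  classical
  have hnac : ¬ G.IsAcyclic := by
    intro hac
    have h1 := (SimpleGraph.IsTree.mk hc hac).card_edgeFinset
    have h2 := G.sum_degrees_eq_twice_card_edges
    rw [Finset.sum_congr rfl (fun v _ => hdeg v), Finset.sum_const, Finset.card_univ,
      smul_eq_mul] at h2
    omega
  unfold SimpleGraph.IsAcyclic at hnac
  push Not at hnac
  obtain ⟨v, c, hcyc⟩ := hnac
  have h3 : 3 ≤ c.length := hcyc.three_le_length
  -- the labelling
  let f : Fin c.length → V := fun i => c.getVert i
  have hf : Function.Injective f := by
    intro i j hij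
    have := hcyc.getVert_injOn' (show (i : ℕ) ∈ {i | i ≤ c.length - 1} by
      have := i.isLt; simp only [Set.mem_ofPred_eq]; omega) (show (j : ℕ) ∈ {i | i ≤ c.length - 1} by
      have := j.isLt; simp only [Set.mem_ofPred_eq]; omega) hij
    exact Fin.ext this
  -- successor and predecessor
  let s : Fin c.length → Fin c.length := fun i =>
    if h : (i : ℕ) + 1 < c.length then ⟨i + 1, h⟩ else ⟨0, by omega⟩
  let p : Fin c.length → Fin c.length := fun i =>
    if h : (i : ℕ) = 0 then ⟨c.length - 1, by omega⟩ else ⟨i - 1, by have := i.isLt; omega⟩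
  have hs : ∀ i, G.Adj (f i) (f (s i)) := by
    intro i
    have h1 := c.adj_getVert_succ i.isLt
    by_cases h : (i : ℕ) + 1 < c.length
    · simp only [s, dif_pos h, f]
      exact h1
    · simp only [s, dif_neg h, f]
      have h2 : (i : ℕ) + 1 = c.length := by have := i.isLt; omega
      rw [h2, c.getVert_length] at h1
      rw [c.getVert_zero]
      exact h1
  have hsp : ∀ i, s (p i) = i := by
    intro i
    apply Fin.ext
    by_cases h : (i : ℕ) = 0
    · simp only [s, p, dif_pos h]
      rw [dif_neg (by omega)]
      exact h.symm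
    · simp only [s, p, dif_neg h]
      rw [dif_pos (by have := i.isLt; omega)]
      simp only
      omega
  have hp : ∀ i, G.Adj (f i) (f (p i)) := by
    intro i
    have := hs (p i)
    rw [hsp i] at this
    exact this.symm
  have hne : ∀ i, s i ≠ p i := by
    intro i h
    have := congrArg Fin.val h
    have hi := i.isLt
    by_cases h1 : (i : ℕ) + 1 < c.length
    · by_cases h2 : (i : ℕ) = 0
      · simp only [s, p, dif_pos h1, dif_pos h2] at this
        omega
      · simp only [s, p, dif_pos h1, dif_neg h2] at this
        omega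
    · by_cases h2 : (i : ℕ) = 0
      · simp only [s, p, dif_neg h1, dif_pos h2] at this
        omega
      · simp only [s, p, dif_neg h1, dif_neg h2] at this
        omega
  have hnb : ∀ i w, G.Adj (f i) w → w = f (s i) ∨ w = f (p i) := by
    intro i w hw
    have h1 : ({f (s i), f (p i)} : Finset V) ⊆ G.neighborFinset (f i) := by
      intro z hz
      rw [Finset.mem_insert, Finset.mem_singleton] at hz
      rw [SimpleGraph.mem_neighborFinset]
      rcases hz with rfl | rfl
      · exact hs i
      · exact hp i
    have h2 : ({f (s i), f (p i)} : Finset V).card = 2 :=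
      Finset.card_pair (fun h => hne i (hf h))
    have h4 := Finset.eq_of_subset_of_card_le h1 (by
      rw [SimpleGraph.card_neighborFinset_eq_degree, hdeg, h2])
    have h5 : w ∈ G.neighborFinset (f i) := by rwa [SimpleGraph.mem_neighborFinset]
    rw [← h4, Finset.mem_insert, Finset.mem_singleton] at h5
    exact h5
  -- surjectivity
  have hsurj : Function.Surjective f := by
    intro w
    obtain ⟨q⟩ := hc.preconnected v w
    have key : ∀ (a b : V) (_ : G.Walk a b), (∃ i, f i = a) → ∃ i, f i = b := by
      intro a b q
      induction q with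
      | nil => exact id
      | cons h q ih =>
        rintro ⟨i, rfl⟩
        apply ih
        rcases hnb i _ h with h' | h'
        · exact ⟨_, h'.symm⟩
        · exact ⟨_, h'.symm⟩
    exact key v w q ⟨⟨0, by omega⟩, c.getVert_zero⟩
  have hbij : Function.Bijective f := ⟨hf, hsurj⟩
  have hcard : Fintype.card V = c.length := by
    rw [← Fintype.card_of_bijective hbij, Fintype.card_fin]
  refine ⟨by omega, ?_⟩
  rw [hcard]
  refine ⟨Equiv.ofBijective f hbij, ?_⟩
  intro a b
  have ha := a.isLt
  have hb := b.isLt
  constructor
  · intro h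
    rcases hnb a _ h with h' | h'
    · have h6 : b = s a := hf h'
      have h7 := congrArg Fin.val h6
      by_cases h1 : (a : ℕ) + 1 < c.length
      · simp only [s, dif_pos h1] at h7
        left; left; exact h7.symm
      · simp only [s, dif_neg h1] at h7
        right; right; exact ⟨h7, by omega⟩
    · have h6 : b = p a := hf h'
      have h7 := congrArg Fin.val h6
      by_cases h2 : (a : ℕ) = 0
      · simp only [p, dif_pos h2] at h7
        right; left; exact ⟨h2, by omega⟩
      · simp only [p, dif_neg h2] at h7
        left; right; omega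
  · intro h
    have hcase : b = s a ∨ a = s b := by
      rcases h with (h | h) | (⟨h, h'⟩ | ⟨h, h'⟩)
      · left
        apply Fin.ext
        simp only [s, dif_pos (show (a : ℕ) + 1 < c.length by omega)]
        exact h.symm
      · right
        apply Fin.ext
        simp only [s, dif_pos (show (b : ℕ) + 1 < c.length by omega)]
        exact h.symm
      · right
        apply Fin.ext
        simp only [s, dif_neg (show ¬ (b : ℕ) + 1 < c.length by omega)]
        exact h
      · left
        apply Fin.ext
        simp only [s, dif_neg (show ¬ (a : ℕ) + 1 < c.length by omega)]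
        exact h
    rcases hcase with rfl | rfl
    · exact hs a
    · exact (hs b).symm

end Label

end Pool.Agent.Lib.MP_406d9d_co
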