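import Mathlib
import Pool.Agent.Lib.MP_406d9d_co.Graph

set_option autoImplicit false

namespace Pool.Agent.Lib.MP_406d9d_co

open Matrix

lemma B3_pos {n : ℕ} (hn : 7 ≤ n) {y : ℝ} (hy : 0 < y) : 0 < B3 n y := by
  have hn' : (7 : ℝ) ≤ n := by exact_mod_cast hn
  unfold B3
  have h1 : 0 < y ^ 2 + ((n : ℝ) - 4) := by nlinarith
  positivity

lemma B5_pos {n : ℕ} (hn : 7 ≤ n) {y : ℝ} (hy : 0 < y) : 0 < B5 n y := by
  have hn' : (7 : ℝ) ≤ n := by exact_mod_cast hn
  unfold B5
  have h1 : 0 < y ^ 2 + ((n : ℝ) - 6) := by nlinarith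
  positivity

/-- the conclusion of the induction -/
def Good (n : ℕ) (y : ℝ) (z : ℂ) : Prop :=
  ∃ P F : ℝ, 0 < P ∧ ((z = (P : ℂ) * ((F : ℂ) + 2 * Complex.I) ∧ B5 n y ≤ F) ∨
    (z = (P : ℂ) * ((F : ℂ) - 2 * Complex.I) ∧ B3 n y ≤ F))

lemma Good.mul {n : ℕ} {y : ℝ} {z : ℂ} (h : Good n y z) {c : ℝ} (hc : 0 < c) :
    Good n y ((c : ℂ) * z) := by
  obtain ⟨P, F, hP, h⟩ := h
  refine ⟨c * P, F, by positivity, ?_⟩
  rcases h with ⟨h1, h2⟩ | ⟨h1, h2⟩
  · left; refine ⟨?_, h2⟩; rw [h1]; push_cast; ring
  · right; refine ⟨?_, h2⟩; rw [h1]; push_cast; ring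

/-- the case of a cycle -/
lemma good_cycle (n : ℕ) (hn : 7 ≤ n) (y : ℝ) (hy : 0 < y) {V : Type*} [Fintype V]
    [DecidableEq V] (G : SimpleGraph V) [DecidableRel G.Adj] (x : V → ℝ)
    (hcon : G.Connected) (hdeg : ∀ v, G.degree v = 2) (hnb : ¬ G.Colorable 2)
    (hx1 : ∀ v, y ≤ x v)
    (hx2 : Fintype.card V = n ∨
      ∃ u, y + y / (y ^ 2 + ((n : ℝ) - Fintype.card V - 1)) ≤ x u) :
    Good n y (Zmat G x).det := by
  obtain ⟨h3, e, he⟩ := exists_labelling G hcon hdeg
  generalize hk : Fintype.card V = k at h3 e he hx2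
  -- k is odd
  have hodd : Odd k := by
    rw [← Nat.not_even_iff_odd]
    intro hev
    apply hnb
    refine ⟨SimpleGraph.Coloring.mk (fun v => (⟨(e.symm v : ℕ) % 2, Nat.mod_lt _ (by norm_num)⟩ :
      Fin 2)) ?_⟩
    intro v w hvw h
    have h1 : ((e.symm v : Fin k) : ℕ) % 2 = ((e.symm w : Fin k) : ℕ) % 2 :=
      congrArg Fin.val h
    have h2 := (he (e.symm v) (e.symm w)).mp (by simpa using hvw)
    obtain ⟨t, ht⟩ := hev
    omega
  let x' : ℕ → ℝ := fun i => if h : i < k then x (e ⟨i, h⟩) else y
  have hx'1 : ∀ i < k, y ≤ x' i := by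
    intro i hi
    simp only [x', dif_pos hi]
    exact hx1 _
  have hdet : (Zmat G x).det = (cycMat k x').det := by
    rw [← Matrix.det_submatrix_equiv_self e (Zmat G x)]
    congr 1
    ext a b
    rw [Matrix.submatrix_apply, Zmat_apply]
    unfold cycMat
    by_cases hab : a = b
    · subst hab
      rw [if_pos rfl, if_neg (G.irrefl), if_pos rfl, add_zero]
      simp [x']
    · have h1 : e a ≠ e b := fun h => hab (e.injective h)
      have h2 : ¬ ((a : ℕ) = b) := fun h => hab (Fin.ext h)
      rw [if_neg h1, if_neg h2, zero_add]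
      by_cases hadj : G.Adj (e a) (e b)
      · rw [if_pos hadj, if_pos ((he a b).mp hadj)]
      · rw [if_neg hadj, if_neg (fun h => hadj ((he a b).mpr h))]
  rw [hdet]
  obtain ⟨j, rfl⟩ : ∃ j, k = j + 3 := ⟨k - 3, by omega⟩
  rw [det_cycMat]
  have hcyc : cont (j + 3) x' + cont (j + 1) (fun i => x' (i + 1)) = cyc (j + 3) x' := rfl
  rw [hcyc]
  have hjeven : Even (j + 2) := by
    rcases hodd with ⟨t, ht⟩
    exact ⟨t, by omega⟩
  rw [hjeven.neg_one_pow, mul_one]
  -- bound for long cycles
  have hlong : 7 ≤ j + 3 → y ^ 7 + 7 * y ^ 5 + 14 * y ^ 3 + 7 * y ≤ cyc (j + 3) x' := by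
    intro h7
    refine (cyc_const_ge hy.le (j + 3) h7 hodd).trans ?_
    exact cyc_mono (j + 3) (by omega) _ _ (fun _ _ => hy.le) (fun i hi => hx'1 i hi)
  -- transfer of the heavier vertex
  have hu : j + 3 < 7 → ∃ i < j + 3,
      y + y / (y ^ 2 + ((n : ℝ) - ((j + 3 : ℕ) : ℝ) - 1)) ≤ x' i := by
    intro h7
    rcases hx2 with h | ⟨u, hu⟩
    · omega
    · refine ⟨(e.symm u : ℕ), (e.symm u).isLt, ?_⟩
      simp only [x', dif_pos (e.symm u).isLt]
      simpa using hu
  have hmod : (j + 3) % 4 = 1 ∨ (j + 3) % 4 = 3 := by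
    rcases hodd with ⟨t, ht⟩
    omega
  rcases hmod with hm | hm
  · -- k ≡ 1 mod 4
    refine ⟨1, cyc (j + 3) x', one_pos, Or.inl ⟨?_, ?_⟩⟩
    · have hI : Complex.I ^ (j + 3) = Complex.I := by
        rw [Complex.I_pow_eq_pow_mod, hm, pow_one]
      rw [hI]; push_cast; ring
    · by_cases h7 : 7 ≤ j + 3
      · exact (B5_le hn hy).trans (hlong h7)
      · have hj : j = 2 := by omega
        subst hj
        apply cyc_five_ge hy x' (fun i hi => hx'1 i hi) (by omega)
        obtain ⟨i, hi, hxi⟩ := hu (by norm_num)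
        refine ⟨i, hi, ?_⟩
        have e1 : ((n : ℝ) - ((2 + 3 : ℕ) : ℝ) - 1) = (n : ℝ) - 6 := by push_cast; ring
        rw [e1] at hxi
        exact hxi
  · -- k ≡ 3 mod 4
    refine ⟨1, cyc (j + 3) x', one_pos, Or.inr ⟨?_, ?_⟩⟩
    · have hI : Complex.I ^ (j + 3) = -Complex.I := by
        rw [Complex.I_pow_eq_pow_mod, hm]
        rw [pow_succ, Complex.I_sq]; ring
      rw [hI]; push_cast; ring
    · by_cases h7 : 7 ≤ j + 3
      · exact (B3_le hn hy).trans (hlong h7)
      · have hj : j = 0 := by omega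
        subst hj
        apply cyc_three_ge hy x' (fun i hi => hx'1 i hi) (by omega)
        obtain ⟨i, hi, hxi⟩ := hu (by norm_num)
        refine ⟨i, hi, ?_⟩
        have e1 : ((n : ℝ) - ((0 + 3 : ℕ) : ℝ) - 1) = (n : ℝ) - 4 := by push_cast; ring
        rw [e1] at hxi
        exact hxi

universe u

/-- The main induction: elimination of the leaves. -/
theorem main_ind (n : ℕ) (hn : 7 ≤ n) (y : ℝ) (hy : 0 < y) : ∀ (N : ℕ) (V : Type u) [Fintype V]
    [DecidableEq V] (G : SimpleGraph V) [DecidableRel G.Adj] (x : V → ℝ),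
    Fintype.card V = N → N ≤ n → G.Connected → G.edgeFinset.card = N → ¬ G.Colorable 2 →
    (∀ v, y ≤ x v) → (∀ v, x v ≤ y + ((n : ℝ) - N) / y) →
    (N = n ∨ ∃ u, y + y / (y ^ 2 + ((n : ℝ) - N - 1)) ≤ x u) → Good n y (Zmat G x).det := by
  intro N
  induction N with
  | zero =>
    intro V _ _ G _ x hcard _ hcon
    exfalso
    obtain ⟨v⟩ := hcon.nonempty
    rw [Fintype.card_eq_zero_iff] at hcard
    exact hcard.elim v
  | succ N ih =>
    intro V _ _ G _ x hcard hNn hcon hedge hnb hx1 hx2 hx3
    by_cases hleaf : ∃ l, G.degree l = 1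
    · obtain ⟨l, hl⟩ := hleaf
      obtain ⟨u, hu, huniq⟩ := SimpleGraph.degree_eq_one_iff_existsUnique_adj.mp hl
      have hlu : ∀ v, G.Adj l v ↔ v = u := fun v => ⟨fun h => huniq v h, fun h => h ▸ hu⟩
      have hul : u ≠ l := fun h => by rw [h] at hu; exact G.irrefl hu
      have hxl : 0 < x l := lt_of_lt_of_le hy (hx1 l)
      rw [det_leaf G x l u hlu hxl]
      apply Good.mul _ hxl
      have hcard' : Fintype.card {v : V // v ≠ l} = N := by
        rw [Fintype.card_subtype_compl, Fintype.card_subtype_eq, hcard]; rfl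
      have hNr : (1 : ℝ) ≤ (n : ℝ) - N := by
        have : ((N + 1 : ℕ) : ℝ) ≤ (n : ℝ) := by exact_mod_cast hNn
        push_cast at this
        linarith
      apply ih {v : V // v ≠ l} (G.comap (Subtype.val : {v : V // v ≠ l} → V)) _ hcard'
        (by omega)
      · -- connected
        exact hcon.induce_compl_singleton_of_degree_eq_one hl
      · -- number of edges
        have h1 := SimpleGraph.card_edgeFinset_induce_compl_singleton G l
        have h2 := SimpleGraph.card_edgeFinset_deleteIncidenceSet G l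
        have h3 : (G.comap (Subtype.val : {v : V // v ≠ l} → V)).edgeFinset.card =
            (G.induce {l}ᶜ).edgeFinset.card := by
          simp only [SimpleGraph.edgeFinset, Set.toFinset_card]
          exact Fintype.card_congr (Equiv.refl _)
        rw [h3, h1, h2, hedge, hl]; rfl
      · -- not 2-colourable
        rintro ⟨c⟩
        apply hnb
        refine ⟨SimpleGraph.Coloring.mk
          (fun v => if h : v = l then 1 - c ⟨u, hul⟩ else c ⟨v, h⟩) ?_⟩
        intro v w hvw
        by_cases hv : v = l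
        · subst hv
          have hw : w = u := (hlu w).mp hvw
          subst hw
          rw [dif_pos rfl, dif_neg hul]
          have : ∀ z : Fin 2, 1 - z ≠ z := by decide
          exact this _
        · by_cases hw : w = l
          · subst hw
            have hv' : v = u := (hlu v).mp hvw.symm
            subst hv'
            rw [dif_neg hv, dif_pos rfl]
            have : ∀ z : Fin 2, z ≠ 1 - z := by decide
            exact this _
          · rw [dif_neg hv, dif_neg hw]
            exact c.valid (show (G.comap (Subtype.val : {v : V // v ≠ l} → V)).Adj ⟨v, hv⟩ ⟨w, hw⟩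
              from hvw)
      · rintro ⟨v, hv⟩
        simp only
        split_ifs with h
        · have := hx1 v
          have h2 : 0 < 1 / x l := by positivity
          linarith
        · exact hx1 v
      · rintro ⟨v, hv⟩
        simp only
        have hstep : y + ((n : ℝ) - ((N + 1 : ℕ) : ℝ)) / y + 1 / y = y + ((n : ℝ) - N) / y := by
          push_cast; field_simp; ring
        have h0 : 0 < 1 / y := by positivity
        split_ifs with h
        · have h1 := hx2 v
          have h2 : 1 / x l ≤ 1 / y := one_div_le_one_div_of_le hy (hx1 l)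
          linarith
        · have h1 := hx2 v
          linarith
      · right
        refine ⟨⟨u, hul⟩, ?_⟩
        simp only [if_true]
        have h1 := hx1 u
        have h2 := hx2 l
        have h3 : y / (y ^ 2 + ((n : ℝ) - N - 1)) ≤ 1 / x l := by
          have h4 : y + ((n : ℝ) - ((N + 1 : ℕ) : ℝ)) / y = (y ^ 2 + ((n : ℝ) - N - 1)) / y := by
            push_cast; field_simp; ring
          rw [h4] at h2
          have h5 : 0 < y ^ 2 + ((n : ℝ) - N - 1) := by nlinarith
          calc y / (y ^ 2 + ((n : ℝ) - N - 1)) = 1 / ((y ^ 2 + ((n : ℝ) - N - 1)) / y) := by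
                rw [one_div_div]
            _ ≤ 1 / x l := one_div_le_one_div_of_le hxl h2
        linarith
    · -- no leaves: a cycle
      push Not at hleaf
      have hnt : Nontrivial V := by
        by_contra hcon'
        rw [not_nontrivial_iff_subsingleton] at hcon'
        have h1 : G.edgeFinset = ∅ := by
          rw [Finset.eq_empty_iff_forall_notMem]
          intro e he
          rw [SimpleGraph.mem_edgeFinset] at he
          induction e with
          | _ a b =>
            have : a = b := Subsingleton.elim a b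
            subst this
            exact G.irrefl ((SimpleGraph.mem_edgeSet G).mp he)
        rw [h1, Finset.card_empty] at hedge
        omega
      have hdeg2 : ∀ v, 2 ≤ G.degree v := by
        intro v
        have h1 := hcon.preconnected.minDegree_pos_of_nontrivial
        have h2 := G.minDegree_le_degree v
        have h3 := hleaf v
        omega
      have hdeg : ∀ v, G.degree v = 2 := by
        have h1 := G.sum_degrees_eq_twice_card_edges
        rw [hedge, ← hcard] at h1
        have h2 : ∑ v : V, 2 = 2 * Fintype.card V := by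
          rw [Finset.sum_const, Finset.card_univ, smul_eq_mul, mul_comm]
        rw [← h2] at h1
        intro v
        exact ((Finset.sum_eq_sum_iff_of_le (fun v _ => hdeg2 v)).mp h1.symm v
          (Finset.mem_univ v)).symm
      exact good_cycle n hn y hy G x hcon hdeg hnb hx1 (by rw [hcard]; exact hx3)

end Pool.Agent.Lib.MP_406d9d_co
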