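import Mathlib
import Pool.Agent.Lib.MP_406d9d_co.Defs
import Pool.Agent.Lib.MP_406d9d_co.Analytic

set_option autoImplicit false

namespace Pool.Agent.Lib.MP_406d9d_co

open Matrix

section

variable {V : Type*} [Fintype V] [DecidableEq V] (G : SimpleGraph V) [DecidableRel G.Adj]

/-- the eigenvalues -/
noncomputable def ev (j : V) : ℝ := (G.isHermitian_adjMatrix ℝ).eigenvalues j

lemma sum_ev : ∑ j, ev G j = 0 := by
  have h := (G.isHermitian_adjMatrix ℝ).trace_eq_sum_eigenvalues
  rw [SimpleGraph.trace_adjMatrix] at h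
  exact h.symm

lemma sum_ev_sq : ∑ j, ev G j ^ 2 = ∑ v, (G.degree v : ℝ) := by
  have hA := G.isHermitian_adjMatrix ℝ
  have h1 : (G.adjMatrix ℝ * G.adjMatrix ℝ).trace = ∑ v, (G.degree v : ℝ) := by
    rw [Matrix.trace]
    apply Finset.sum_congr rfl
    intro v _
    rw [Matrix.diag_apply, SimpleGraph.adjMatrix_mul_self_apply_self]
  rw [← h1]
  have h2 := hA.spectral_theorem
  set D : Matrix V V ℝ := diagonal (RCLike.ofReal ∘ hA.eigenvalues) with hD
  set U := hA.eigenvectorUnitary with hU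
  have h3 : G.adjMatrix ℝ * G.adjMatrix ℝ = Unitary.conjStarAlgAut ℝ _ U (D * D) := by
    rw [map_mul, ← h2]
  rw [h3, Unitary.conjStarAlgAut_apply, Matrix.trace_mul_comm, ← Matrix.mul_assoc,
    Unitary.coe_star_mul_self, Matrix.one_mul, hD, diagonal_mul_diagonal, trace_diagonal]
  apply Finset.sum_congr rfl
  intro j _
  simp [ev, sq]

lemma det_eq_prod (y : ℝ) :
    (Matrix.diagonal (fun _ : V => (y : ℂ)) + Complex.I • G.adjMatrix ℂ).det =
      ∏ j, ((y : ℂ) + Complex.I * (ev G j : ℂ)) := by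
  have hA := G.isHermitian_adjMatrix ℝ
  have h1 : G.adjMatrix ℂ = (G.adjMatrix ℝ).map (algebraMap ℝ ℂ) := by
    ext i j
    simp only [SimpleGraph.adjMatrix_apply, Matrix.map_apply]
    split_ifs <;> simp
  have h2 : (G.adjMatrix ℂ).charpoly = ∏ j, (Polynomial.X - Polynomial.C (ev G j : ℂ)) := by
    rw [h1]
    rw [Matrix.charpoly_map (G.adjMatrix ℝ) (algebraMap ℝ ℂ), hA.charpoly_eq, Polynomial.map_prod]
    apply Finset.prod_congr rfl
    intro j _
    simp [ev]
  have h3 := Matrix.eval_charpoly (G.adjMatrix ℂ) (Complex.I * y)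
  rw [h2, Polynomial.eval_prod] at h3
  have h4 : (Matrix.diagonal (fun _ : V => (y : ℂ)) + Complex.I • G.adjMatrix ℂ) =
      (-Complex.I) • (Matrix.scalar V (Complex.I * y) - G.adjMatrix ℂ) := by
    ext i j
    simp only [Matrix.add_apply, Matrix.smul_apply, Matrix.sub_apply, Matrix.scalar_apply,
      smul_eq_mul, Matrix.diagonal_apply]
    split_ifs with h
    · ring_nf
      rw [Complex.I_sq]
      ring
    · ring
  rw [h4, Matrix.det_smul, ← h3, ← Finset.card_univ, ← Finset.prod_const,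
    ← Finset.prod_mul_distrib]
  apply Finset.prod_congr rfl
  intro j _
  simp only [Polynomial.eval_sub, Polynomial.eval_X, Polynomial.eval_C]
  ring_nf
  rw [Complex.I_sq]
  ring

end

/-- `s⁺` in terms of `∑ λ²` and `∑ λ|λ|` -/
lemma two_mul_sPlus {V : Type*} [Fintype V] [DecidableEq V] (G : SimpleGraph V)
    [DecidableRel G.Adj] :
    2 * sPlus G = ∑ v, (G.degree v : ℝ) + ∑ j, ev G j * |ev G j| := by
  have h0 : sPlus G = ∑ j, if 0 < ev G j then ev G j ^ 2 else 0 := by
    have hD : ‹DecidableEq V› = (fun a b => Classical.propDecidable (a = b)) :=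
      Subsingleton.elim _ _
    have hR : ‹DecidableRel G.Adj› = (fun a b => Classical.propDecidable (G.Adj a b)) :=
      Subsingleton.elim _ _
    subst hD hR
    rfl
  rw [h0, ← sum_ev_sq, ← Finset.sum_add_distrib, Finset.mul_sum]
  apply Finset.sum_congr rfl
  intro j _
  split_ifs with h
  · rw [abs_of_pos h]; ring
  · rw [abs_of_nonpos (not_lt.mp h)]; ring

/-- `s⁻` in terms of `∑ λ²` and `∑ λ|λ|` -/
lemma two_mul_sMinus {V : Type*} [Fintype V] [DecidableEq V] (G : SimpleGraph V)
    [DecidableRel G.Adj] :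
    2 * sMinus G = ∑ v, (G.degree v : ℝ) - ∑ j, ev G j * |ev G j| := by
  have h0 : sMinus G = ∑ j, if ev G j < 0 then ev G j ^ 2 else 0 := by
    have hD : ‹DecidableEq V› = (fun a b => Classical.propDecidable (a = b)) :=
      Subsingleton.elim _ _
    have hR : ‹DecidableRel G.Adj› = (fun a b => Classical.propDecidable (G.Adj a b)) :=
      Subsingleton.elim _ _
    subst hD hR
    rfl
  rw [h0, ← sum_ev_sq, ← Finset.sum_sub_distrib, Finset.mul_sum]
  apply Finset.sum_congr rfl
  intro j _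
  split_ifs with h
  · rw [abs_of_neg h]; ring
  · rw [abs_of_nonneg (not_lt.mp h)]; ring

end Pool.Agent.Lib.MP_406d9d_co
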