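import Mathlib
import Pool.Agent.Lib.MP_406d9d_co.Defs
import Pool.Agent.Lib.MP_406d9d_co.Graph

set_option autoImplicit false

namespace Pool.Agent.Lib.MP_406d9d_co

open Matrix

lemma star_adj (k n : ℕ) (a b : Fin n) : (starCycle k n).Adj a b ↔ a ≠ b ∧
    ((((a : ℕ) + 1 = b ∧ (b : ℕ) < k) ∨ ((a : ℕ) = 0 ∧ (b : ℕ) + 1 = k) ∨
      ((a : ℕ) = 0 ∧ (b : ℕ) = k) ∨ ((a : ℕ) = k ∧ k < (b : ℕ))) ∨
    (((b : ℕ) + 1 = a ∧ (a : ℕ) < k) ∨ ((b : ℕ) = 0 ∧ (a : ℕ) + 1 = k) ∨
      ((b : ℕ) = 0 ∧ (a : ℕ) = k) ∨ ((b : ℕ) = k ∧ k < (a : ℕ)))) :=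
  SimpleGraph.fromRel_adj _ a b

instance starDec (k n : ℕ) : DecidableRel (starCycle k n).Adj := fun a b =>
  decidable_of_iff' _ (star_adj k n a b)

/-- the vertex to which the vertex `m` is attached when it is added (`m ≥ k`) -/
def att (k m : ℕ) : ℕ := if m = k then 0 else k

lemma star_last_adj (k m : ℕ) (hk : 3 ≤ k) (hm : k ≤ m) (v : Fin (m + 1)) :
    (starCycle k (m + 1)).Adj (Fin.last m) v ↔ v = ⟨att k m, by unfold att; split_ifs <;> omega⟩ := by
  rw [star_adj]
  have hv := v.isLt
  constructor
  · rintro ⟨h1, h2⟩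
    apply Fin.ext
    have h3 : (v : ℕ) ≠ m := fun h => h1 (Fin.ext h.symm)
    simp only [Fin.val_last] at h2
    unfold att
    split_ifs with h4 <;> simp only <;> omega
  · rintro rfl
    refine ⟨?_, ?_⟩
    · intro h
      have := congrArg Fin.val h
      simp only [Fin.val_last] at this
      unfold att at this
      split_ifs at this <;> omega
    · simp only [Fin.val_last]
      unfold att
      split_ifs <;> omega

/-- removing the last vertex -/
lemma star_comap (k m : ℕ) (a b : Fin m) :
    (starCycle k (m + 1)).Adj a.castSucc b.castSucc ↔ (starCycle k m).Adj a b := by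
  rw [star_adj, star_adj]
  simp only [Fin.val_castSucc, ne_eq, Fin.castSucc_inj]

lemma det_star_step (k m : ℕ) (hk : 3 ≤ k) (hm : k ≤ m) (x : ℕ → ℝ) (hx : 0 < x m) :
    (Zmat (starCycle k (m + 1)) (fun i => x i)).det = (x m : ℂ) *
      (Zmat (starCycle k m) (fun i => if (i : ℕ) = att k m then x i + 1 / x m else x i)).det := by
  have hl := star_last_adj k m hk hm
  rw [det_leaf (starCycle k (m + 1)) (fun i => x i) (Fin.last m) _ hl (by simpa using hx)]
  congr 1
  let e : Fin m ≃ {v : Fin (m + 1) // v ≠ Fin.last m} := finSuccAboveEquiv (Fin.last m)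
  have he : ∀ a : Fin m, ((e a : {v : Fin (m + 1) // v ≠ Fin.last m}) : Fin (m + 1)) =
      a.castSucc := by
    intro a
    simp only [e, finSuccAboveEquiv_apply, Fin.succAbove_last]
  rw [← Matrix.det_submatrix_equiv_self e]
  congr 1
  ext a b
  rw [Matrix.submatrix_apply, Zmat_apply, Zmat_apply]
  simp only [SimpleGraph.comap_adj, he, star_comap, Fin.val_last, Fin.val_castSucc]
  congr 1
  by_cases hab : a = b
  · subst hab
    simp [Fin.ext_iff]
  · rw [if_neg (fun h => hab (e.injective h)), if_neg hab]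

/-- the determinant after removing `t` leaves -/
lemma det_star_leaves (k : ℕ) (hk : 3 ≤ k) (y : ℝ) (hy : 0 < y) (t : ℕ) : ∀ w : ℝ, 0 < w →
    (Zmat (starCycle k (k + 1 + t)) (fun i => if (i : ℕ) = k then w else y)).det =
      (y : ℂ) ^ t * (Zmat (starCycle k (k + 1))
        (fun i => if (i : ℕ) = k then w + t / y else y)).det := by
  induction t with
  | zero => intro w _; simp
  | succ t ih =>
    intro w hw
    have h1 := det_star_step k (k + 1 + t) hk (by omega) (fun i => if i = k then w else y)
      (by rw [if_neg (by omega)]; exact hy)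
    have hatt : att k (k + 1 + t) = k := by unfold att; rw [if_neg (by omega)]
    rw [hatt] at h1
    simp only [if_neg (show ¬ (k + 1 + t = k) by omega)] at h1
    have h2 : (fun i : Fin (k + 1 + t) => if (i : ℕ) = k then
        (if (i : ℕ) = k then w else y) + 1 / y else if (i : ℕ) = k then w else y) =
        (fun i : Fin (k + 1 + t) => if (i : ℕ) = k then w + 1 / y else y) := by
      funext i
      split_ifs <;> rfl
    rw [h2] at h1
    rw [show k + 1 + (t + 1) = k + 1 + t + 1 by ring, h1, ih (w + 1 / y) (by positivity)]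
    rw [pow_succ]
    have h3 : w + 1 / y + (t : ℝ) / y = w + ((t + 1 : ℕ) : ℝ) / y := by
      push_cast; field_simp; ring
    rw [h3]
    ring

/-- the determinant for `H^k_n` -/
lemma det_star (k : ℕ) (hk : 3 ≤ k) (y : ℝ) (hy : 0 < y) (t : ℕ) :
    ∃ P : ℝ, 0 < P ∧ (Zmat (starCycle k (k + 1 + t)) (fun _ => y)).det = (P : ℂ) *
      (cycMat k (fun i => if i = 0 then y + y / (y ^ 2 + t) else y)).det := by
  have h0 : (fun _ : Fin (k + 1 + t) => y) =
      fun i : Fin (k + 1 + t) => if (i : ℕ) = k then y else y := by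
    funext i; split_ifs <;> rfl
  have hw : 0 < y + (t : ℝ) / y := by positivity
  have h1 := det_star_step k k hk le_rfl (fun i => if i = k then y + (t : ℝ) / y else y)
    (by simp only [if_true]; exact hw)
  have hatt : att k k = 0 := by unfold att; rw [if_pos rfl]
  rw [hatt] at h1
  simp only [if_true] at h1
  refine ⟨y ^ t * (y + t / y), by positivity, ?_⟩
  rw [h0, det_star_leaves k hk y hy t y hy, h1]
  have h2 : Zmat (starCycle k k) (fun i : Fin k => if (i : ℕ) = 0 then
      (if (i : ℕ) = k then y + (t : ℝ) / y else y) + 1 / (y + (t : ℝ) / y) else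
        if (i : ℕ) = k then y + (t : ℝ) / y else y) =
      cycMat k (fun i => if i = 0 then y + y / (y ^ 2 + t) else y) := by
    ext a b
    have ha := a.isLt
    have hb := b.isLt
    rw [Zmat_apply]
    unfold cycMat
    have hinv : 1 / (y + (t : ℝ) / y) = y / (y ^ 2 + t) := by
      have : y ^ 2 + (t : ℝ) ≠ 0 := by positivity
      field_simp
    by_cases hab : a = b
    · subst hab
      rw [if_pos rfl, if_neg ((starCycle k k).irrefl), if_pos rfl, add_zero,
        if_neg (show ¬ ((a : ℕ) = k) by omega), hinv]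
    · have hab' : ¬ ((a : ℕ) = b) := fun h => hab (Fin.ext h)
      rw [if_neg hab, if_neg hab', zero_add]
      have hiff : (starCycle k k).Adj a b ↔ (((a : ℕ) + 1 = b ∨ (b : ℕ) + 1 = a) ∨
          (((a : ℕ) = 0 ∧ (b : ℕ) + 1 = k) ∨ ((b : ℕ) = 0 ∧ (a : ℕ) + 1 = k))) := by
        rw [star_adj]
        constructor
        · rintro ⟨_, h⟩
          omega
        · intro h
          refine ⟨hab, ?_⟩
          omega
      by_cases hadj : (starCycle k k).Adj a b
      · rw [if_pos hadj, if_pos (hiff.mp hadj)]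
      · rw [if_neg hadj, if_neg (fun h => hadj (hiff.mpr h))]
  rw [h2]
  push_cast
  ring

/-- number of edges of `H^k_n` -/
lemma star_edges_step (k m : ℕ) (hk : 3 ≤ k) (hm : k ≤ m) :
    (starCycle k (m + 1)).edgeFinset.card = (starCycle k m).edgeFinset.card + 1 := by
  have hl := star_last_adj k m hk hm
  have hdeg : (starCycle k (m + 1)).degree (Fin.last m) = 1 := by
    rw [SimpleGraph.degree_eq_one_iff_existsUnique_adj]
    exact ⟨_, (hl _).mpr rfl, fun v hv => (hl v).mp hv⟩
  have h1 := SimpleGraph.card_edgeFinset_induce_compl_singleton (starCycle k (m + 1)) (Fin.last m)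
  have h2 := SimpleGraph.card_edgeFinset_deleteIncidenceSet (starCycle k (m + 1)) (Fin.last m)
  have h4 : 1 ≤ (starCycle k (m + 1)).edgeFinset.card := by
    have := (starCycle k (m + 1)).degree_le_card_edgeFinset (Fin.last m)
    omega
  let e : Fin m ≃ {v : Fin (m + 1) // v ≠ Fin.last m} := finSuccAboveEquiv (Fin.last m)
  have he : ∀ a : Fin m, ((e a : {v : Fin (m + 1) // v ≠ Fin.last m}) : Fin (m + 1)) =
      a.castSucc := by
    intro a
    simp only [e, finSuccAboveEquiv_apply, Fin.succAbove_last]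
  have h3 : (starCycle k m).edgeFinset.card =
      ((starCycle k (m + 1)).induce {Fin.last m}ᶜ).edgeFinset.card := by
    simp only [SimpleGraph.edgeFinset, Set.toFinset_card]
    let f : (starCycle k m) ≃g
        (starCycle k (m + 1)).comap (Subtype.val : {v : Fin (m + 1) // v ≠ Fin.last m} → _) :=
      { e with
        map_rel_iff' := by
          intro a b
          simp only [SimpleGraph.comap_adj]
          change (starCycle k (m + 1)).Adj ((e a : {v : Fin (m + 1) // v ≠ Fin.last m}) :
            Fin (m + 1)) ((e b : {v : Fin (m + 1) // v ≠ Fin.last m}) : Fin (m + 1)) ↔ _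
          rw [he, he]
          exact star_comap k m a b }
    exact Fintype.card_congr f.mapEdgeSet
  omega

lemma star_edges (k : ℕ) (hk : 3 ≤ k) (hbase : (starCycle k k).edgeFinset.card = k) (t : ℕ) :
    (starCycle k (k + t)).edgeFinset.card = k + t := by
  induction t with
  | zero => exact hbase
  | succ t ih =>
    rw [show k + (t + 1) = k + t + 1 by ring, star_edges_step k (k + t) hk (by omega), ih]

end Pool.Agent.Lib.MP_406d9d_co
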