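import Mathlib
import Pool.Agent.Lib.MP_406d9d_co.Spectral
import Pool.Agent.Lib.MP_406d9d_co.Induct
import Pool.Agent.Lib.MP_406d9d_co.Star

set_option autoImplicit false

namespace Pool.Agent.Lib.MP_406d9d_co

open Matrix

/-- the product over the eigenvalues as determinant of `Zmat` -/
lemma prod_ev {V : Type*} [Fintype V] [DecidableEq V] (G : SimpleGraph V) [DecidableRel G.Adj]
    (y : ℝ) : ∏ j, ((y : ℂ) + Complex.I * (ev G j : ℂ)) = (Zmat G (fun _ => y)).det := by
  rw [← det_eq_prod]; rfl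

/-- real part and quotient in the good case -/
lemma good_re {n : ℕ} (hn : 7 ≤ n) {y : ℝ} (hy : 0 < y) {z : ℂ} (h : Good n y z) :
    0 < z.re ∧ -2 / B3 n y ≤ z.im / z.re ∧ z.im / z.re ≤ 2 / B5 n y := by
  obtain ⟨P, F, hP, h⟩ := h
  have h3 := B3_pos hn hy
  have h5 := B5_pos hn hy
  rcases h with ⟨rfl, hF⟩ | ⟨rfl, hF⟩
  · have hF0 : 0 < F := lt_of_lt_of_le h5 hF
    have hre : ((P : ℂ) * ((F : ℂ) + 2 * Complex.I)).re = P * F := by simp
    have him : ((P : ℂ) * ((F : ℂ) + 2 * Complex.I)).im = P * 2 := by simp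
    rw [hre, him, mul_div_mul_left _ _ hP.ne']
    refine ⟨by positivity, ?_, ?_⟩
    · have h1 : 0 ≤ 2 / F := by positivity
      have h2 : -2 / B3 n y ≤ 0 := div_nonpos_of_nonpos_of_nonneg (by norm_num) h3.le
      linarith
    · exact div_le_div_of_nonneg_left (by norm_num) h5 hF
  · have hF0 : 0 < F := lt_of_lt_of_le h3 hF
    have hre : ((P : ℂ) * ((F : ℂ) - 2 * Complex.I)).re = P * F := by simp
    have him : ((P : ℂ) * ((F : ℂ) - 2 * Complex.I)).im = P * (-2) := by simp
    rw [hre, him, mul_div_mul_left _ _ hP.ne']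
    refine ⟨by positivity, ?_, ?_⟩
    · rw [neg_div, neg_div, neg_le_neg_iff]
      exact div_le_div_of_nonneg_left (by norm_num) h3 hF
    · have h1 : 0 ≤ 2 / B5 n y := by positivity
      have h2 : -2 / F ≤ 0 := div_nonpos_of_nonpos_of_nonneg (by norm_num) hF0.le
      linarith

/-- data of a unicyclic non-bipartite graph -/
lemma unicyclic_good {V : Type*} [Fintype V] [DecidableEq V] (G : SimpleGraph V)
    [DecidableRel G.Adj] (n : ℕ) (hn : 7 ≤ n) (hcard : Fintype.card V = n)
    (hG : IsUnicyclic G) (hnb : ¬ G.Colorable 2) {y : ℝ} (hy : 0 < y) :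
    Good n y (Zmat G (fun _ => y)).det := by
  apply main_ind n hn y hy n V G _ hcard le_rfl hG.1
  · have h := hG.2
    rw [Nat.card_eq_fintype_card, Nat.card_eq_fintype_card, hcard] at h
    rw [← h, SimpleGraph.edgeFinset, Set.toFinset_card]
  · exact hnb
  · intro v; exact le_rfl
  · intro v; simp
  · left; rfl

lemma unicyclic_degrees {V : Type*} [Fintype V] [DecidableEq V] (G : SimpleGraph V)
    [DecidableRel G.Adj] (n : ℕ) (h : G.edgeFinset.card = n) :
    ∑ v, (G.degree v : ℝ) = 2 * n := by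
  have h1 := G.sum_degrees_eq_twice_card_edges
  rw [h] at h1
  exact_mod_cast h1

lemma star_three (n : ℕ) (hn : 7 ≤ n) {y : ℝ} (hy : 0 < y) :
    0 < ((Zmat (starCycle 3 n) (fun _ => y)).det).re ∧
    ((Zmat (starCycle 3 n) (fun _ => y)).det).im / ((Zmat (starCycle 3 n) (fun _ => y)).det).re =
      -2 / B3 n y := by
  obtain ⟨t, rfl⟩ : ∃ t, n = 3 + 1 + t := ⟨n - 4, by omega⟩
  obtain ⟨P, hP, hdet⟩ := det_star 3 le_rfl y hy t
  have hcyc : (cycMat 3 (fun i => if i = 0 then y + y / (y ^ 2 + t) else y)).det =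
      ((B3 (3 + 1 + t) y : ℝ) : ℂ) - 2 * Complex.I := by
    have := det_cycMat 0 (fun i => if i = 0 then y + y / (y ^ 2 + t) else y)
    simp only [zero_add] at this
    rw [this]
    have h1 : cont 3 (fun i => if i = 0 then y + y / (y ^ 2 + t) else y) +
        cont 1 (fun i => if i + 1 = 0 then y + y / (y ^ 2 + t) else y) = B3 (3 + 1 + t) y := by
      unfold B3
      have : (((3 + 1 + t : ℕ) : ℝ) - 4) = t := by push_cast; ring
      rw [this]
      simp [cont]
      ring
    rw [h1]
    have h2 : Complex.I ^ 3 = -Complex.I := by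
      rw [pow_succ, Complex.I_sq]; ring
    rw [h2]
    ring
  rw [hdet, hcyc]
  have h3 := B3_pos hn hy
  have hre : ((P : ℂ) * (((B3 (3 + 1 + t) y : ℝ) : ℂ) - 2 * Complex.I)).re =
      P * B3 (3 + 1 + t) y := by simp
  have him : ((P : ℂ) * (((B3 (3 + 1 + t) y : ℝ) : ℂ) - 2 * Complex.I)).im = P * (-2) := by simp
  rw [hre, him, mul_div_mul_left _ _ hP.ne']
  exact ⟨by positivity, rfl⟩

lemma star_five (n : ℕ) (hn : 7 ≤ n) {y : ℝ} (hy : 0 < y) :
    0 < ((Zmat (starCycle 5 n) (fun _ => y)).det).re ∧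
    ((Zmat (starCycle 5 n) (fun _ => y)).det).im / ((Zmat (starCycle 5 n) (fun _ => y)).det).re =
      2 / B5 n y := by
  obtain ⟨t, rfl⟩ : ∃ t, n = 5 + 1 + t := ⟨n - 6, by omega⟩
  obtain ⟨P, hP, hdet⟩ := det_star 5 (by norm_num) y hy t
  have hcyc : (cycMat 5 (fun i => if i = 0 then y + y / (y ^ 2 + t) else y)).det =
      ((B5 (5 + 1 + t) y : ℝ) : ℂ) + 2 * Complex.I := by
    have := det_cycMat 2 (fun i => if i = 0 then y + y / (y ^ 2 + t) else y)
    norm_num only at this
    rw [this]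
    have h1 : cont 5 (fun i => if i = 0 then y + y / (y ^ 2 + t) else y) +
        cont 3 (fun i => if i + 1 = 0 then y + y / (y ^ 2 + t) else y) = B5 (5 + 1 + t) y := by
      unfold B5
      have : (((5 + 1 + t : ℕ) : ℝ) - 6) = t := by push_cast; ring
      rw [this]
      simp [cont]
      ring
    rw [h1]
    have h2 : Complex.I ^ 5 = Complex.I := by
      rw [Complex.I_pow_eq_pow_mod]; norm_num
    rw [h2]
  rw [hdet, hcyc]
  have h5 := B5_pos hn hy
  have hre : ((P : ℂ) * (((B5 (5 + 1 + t) y : ℝ) : ℂ) + 2 * Complex.I)).re =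
      P * B5 (5 + 1 + t) y := by simp
  have him : ((P : ℂ) * (((B5 (5 + 1 + t) y : ℝ) : ℂ) + 2 * Complex.I)).im = P * 2 := by simp
  rw [hre, him, mul_div_mul_left _ _ hP.ne']
  exact ⟨by positivity, rfl⟩

/-- minimum of the negative square energy -/
theorem sMinus_ge {V : Type*} [Fintype V] (G : SimpleGraph V) (n : ℕ) (hn : 7 ≤ n)
    (hcard : Fintype.card V = n) (hG : IsUnicyclic G) (hnb : ¬ G.Colorable 2) :
    sMinus (starCycle 3 n) ≤ sMinus G := by
  classical
  have h1 := two_mul_sMinus G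
  have h2 := two_mul_sMinus (starCycle 3 n)
  have hedge : G.edgeFinset.card = n := by
    have h := hG.2
    rw [Nat.card_eq_fintype_card, Nat.card_eq_fintype_card, hcard] at h
    rw [← h, SimpleGraph.edgeFinset, Set.toFinset_card]
  have hd1 := unicyclic_degrees G n hedge
  have hstar : (starCycle 3 n).edgeFinset.card = n := by
    obtain ⟨t, rfl⟩ : ∃ t, n = 3 + t := ⟨n - 3, by omega⟩
    exact star_edges 3 le_rfl (by decide) t
  have hd2 := unicyclic_degrees (starCycle 3 n) n hstar
  have hmain : ∑ j, ev G j * |ev G j| ≤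
      ∑ j, ev (starCycle 3 n) j * |ev (starCycle 3 n) j| := by
    apply sum_mul_abs_le _ _ (sum_ev _) (sum_ev _)
    intro y hy
    apply theta_le _ _ _ _ hy
    · rw [prod_ev, prod_ev]
      rw [(star_three n hn hy).2]
      exact (good_re hn hy (unicyclic_good G n hn hcard hG hnb hy)).2.1
    · intro z hz
      rw [prod_ev]
      exact (star_three n hn hz).1
    · intro z hz
      rw [prod_ev]
      exact (good_re hn hz (unicyclic_good G n hn hcard hG hnb hz)).1
  linarith

/-- minimum of the positive square energy -/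
theorem sPlus_ge {V : Type*} [Fintype V] (G : SimpleGraph V) (n : ℕ) (hn : 7 ≤ n)
    (hcard : Fintype.card V = n) (hG : IsUnicyclic G) (hnb : ¬ G.Colorable 2) :
    sPlus (starCycle 5 n) ≤ sPlus G := by
  classical
  have h1 := two_mul_sPlus G
  have h2 := two_mul_sPlus (starCycle 5 n)
  have hedge : G.edgeFinset.card = n := by
    have h := hG.2
    rw [Nat.card_eq_fintype_card, Nat.card_eq_fintype_card, hcard] at h
    rw [← h, SimpleGraph.edgeFinset, Set.toFinset_card]
  have hd1 := unicyclic_degrees G n hedge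
  have hstar : (starCycle 5 n).edgeFinset.card = n := by
    obtain ⟨t, rfl⟩ : ∃ t, n = 5 + t := ⟨n - 5, by omega⟩
    exact star_edges 5 (by norm_num) (by decide) t
  have hd2 := unicyclic_degrees (starCycle 5 n) n hstar
  have hmain : ∑ j, ev (starCycle 5 n) j * |ev (starCycle 5 n) j| ≤
      ∑ j, ev G j * |ev G j| := by
    apply sum_mul_abs_le _ _ (sum_ev _) (sum_ev _)
    intro y hy
    apply theta_le _ _ _ _ hy
    · rw [prod_ev, prod_ev]
      rw [(star_five n hn hy).2]
      exact (good_re hn hy (unicyclic_good G n hn hcard hG hnb hy)).2.2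
    · intro z hz
      rw [prod_ev]
      exact (good_re hn hz (unicyclic_good G n hn hcard hG hnb hz)).1
    · intro z hz
      rw [prod_ev]
      exact (star_five n hn hz).1
  linarith

end Pool.Agent.Lib.MP_406d9d_co
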